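import Pool.Agent.W458.FJ.Stm

/-! Project FJ, part TOR: a pure power of `x` and a zero in the torus of the line of `x`, `y`. -/

set_option autoImplicit false

namespace Pool.Agent.W700.FJ.TOR

open MvPolynomial

theorem main : Pool.Agent.W458.FJ.TOR := by
  intro ι _ _ a ha d f hf x y hxy hcop hnz v hvx hvy hv hev
  obtain ⟨m0, hm0, hs0⟩ := hnz
  have hw : ∀ m ∈ f.support, m.support ⊆ {x, y} → m x * a x + m y * a y = d := by
    intro m hm hs
    have h := hf (mem_support_iff.1 hm)
    rw [Finsupp.weight_apply, Finsupp.sum_of_support_subset _ hs _ (by simp),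
      Finset.sum_pair hxy] at h
    simpa [smul_eq_mul] using h
  have hs0' : m0.support ⊆ {x, y} := hs0.trans (by simp)
  have hm0y : m0 y = 0 := by
    by_contra h
    have h1 : y ∈ m0.support := Finsupp.mem_support_iff.2 h
    have h2 := Finset.mem_singleton.1 (hs0 h1)
    exact hxy h2.symm
  have hd0 : m0 x * a x = d := by
    have := hw m0 hm0 hs0'
    rw [hm0y, zero_mul, add_zero] at this
    exact this
  have hex : ∃ m ∈ f.support, m.support ⊆ {x, y} ∧ m ≠ m0 := by
    by_contra hno
    push Not at hno
    rw [eval_eq'] at hev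
    have h1 : ∑ m ∈ f.support, coeff m f * ∏ i, v i ^ m i =
        coeff m0 f * ∏ i, v i ^ m0 i := by
      refine Finset.sum_eq_single_of_mem m0 hm0 fun m hm hne => ?_
      have h2 : ¬ m.support ⊆ {x, y} := fun h => hne (hno m hm h)
      obtain ⟨i, hi, hixy⟩ := Finset.not_subset.1 h2
      have h3 : i ≠ x ∧ i ≠ y := by
        constructor <;> rintro rfl <;> simp at hixy
      have h4 : v i ^ m i = 0 := by
        rw [hv i h3.1 h3.2]
        exact zero_pow (Finsupp.mem_support_iff.1 hi)
      rw [Finset.prod_eq_zero (Finset.mem_univ i) h4, mul_zero]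
    rw [h1] at hev
    have h5 : ∏ i, v i ^ m0 i ≠ 0 := by
      refine Finset.prod_ne_zero_iff.2 fun i _ => ?_
      by_cases hix : i = x
      · rw [hix]
        exact pow_ne_zero _ hvx
      · have h6 : m0 i = 0 := by
          by_contra h
          exact hix (Finset.mem_singleton.1 (hs0 (Finsupp.mem_support_iff.2 h)))
        rw [h6, pow_zero]
        exact one_ne_zero
    rcases mul_eq_zero.1 hev with h | h
    · exact mem_support_iff.1 hm0 h
    · exact h5 h
  obtain ⟨m, hm, hs, hne⟩ := hex
  have hd := hw m hm hs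
  have hmy : m y ≠ 0 := by
    intro h0
    rw [h0, zero_mul, add_zero] at hd
    have h1 : m x = m0 x := Nat.eq_of_mul_eq_mul_right (ha x) (hd.trans hd0.symm)
    apply hne
    ext i
    by_cases hix : i = x
    · rw [hix, h1]
    · by_cases hiy : i = y
      · rw [hiy, h0, hm0y]
      · have h2 : m i = 0 := by
          by_contra h
          have := hs (Finsupp.mem_support_iff.2 h)
          simp [hix, hiy] at this
        have h3 : m0 i = 0 := by
          by_contra h
          exact hix (Finset.mem_singleton.1 (hs0 (Finsupp.mem_support_iff.2 h)))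
        rw [h2, h3]
  have hdvd : a x ∣ m y * a y := by
    have h1 : a x ∣ m x * a x + m y * a y := by
      rw [hd, ← hd0]
      exact Dvd.intro_left _ rfl
    exact (Nat.dvd_add_right (Dvd.intro_left _ rfl)).1 h1
  have hdvd' : a x ∣ m y := hcop.dvd_of_dvd_mul_right hdvd
  have hle : a x ≤ m y := Nat.le_of_dvd (Nat.pos_of_ne_zero hmy) hdvd'
  calc a x * a y ≤ m y * a y := Nat.mul_le_mul_right _ hle
    _ ≤ m x * a x + m y * a y := Nat.le_add_left _ _
    _ = d := hd

end Pool.Agent.W700.FJ.TOR
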